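import Pool.Agent.Q8.NS.Pairs

/-!
# The normal order of the 2-torsion of the Tate-Shafarevich groups of 2-isogenous curves

Let `E : y² = x (x - A) (x - B)`, and let `E'_0, E'_1, E'_2` be its three quotients by the subgroups
generated by a point of order two. For almost all the pairs `(A, B) = (D m, D n)`, `m` and `n`
coprime, in short squares: the ranks of the four curves are at most `R`, `#Ш(E)[2 ^ j] ≤ 2 ^ (R j)` for
all `j`, while the dimension of `Ш(E'_i)[2]` over the field of two elements is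
`(3 / 2 + O(δ)) log log X`, and `#Ш(E'_i)[2 ^ j] ≤ 2 ^ (R j) #Ш(E'_i)[2]` for all `j`.
-/

set_option autoImplicit false

namespace Pool.Agent.Results.MP_e23604_nt.NormalOrderPairs

open WeierstrassCurve Finset Pool.Agent.TH841.SH.D

/-- the curve `y² = x (x - A) (x - B)` -/
def E (A B : ℤ) : WeierstrassCurve ℚ := ⟨0, -((A : ℚ) + B), 0, (A : ℚ) * B, 0⟩

/-- the quotient of `y² = x (x - a) (x - b)` by its subgroup generated by `(0, 0)`: the curve
`y² = x³ + 2 (a + b) x² + (a - b)² x` -/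
def Q (a b : ℤ) : WeierstrassCurve ℚ := ⟨0, 2 * ((a : ℚ) + b), 0, ((a : ℚ) - b) ^ 2, 0⟩

/-- the quotients of `E A B` by the subgroups generated by `(0, 0)`, `(A, 0)`, `(B, 0)` -/
def E' (i : Fin 3) (A B : ℤ) : WeierstrassCurve ℚ := ![Q A B, Q (-A) (B - A), Q (-B) (A - B)] i

/-- The pair `(A, B)` is normal: `E A B` is an elliptic curve, all its groups `Ш[2 ^ j]` are finite,
of order at most `2 ^ (R j)`, and its rank is at most `R`; the three 2-isogenous curves have rank at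
most `R`, finite groups `Ш[2 ^ j]`, the dimension of `Ш[2]` over the field of two elements differs
from `(3 / 2) log log X` by at most `δ log log X`, and the order of `Ш[2 ^ j]` is at most
`2 ^ (R j)` times the order of `Ш[2]`. -/
def Normal (R : ℕ) (δ : ℝ) (X : ℕ) (A B : ℤ) : Prop :=
  A ≠ 0 ∧ B ≠ 0 ∧ A ≠ B ∧ rk (E A B) ≤ R ∧ (∀ j : ℕ, Finite (ShaTor (E A B) (2 ^ j))) ∧
    (∀ j : ℕ, 1 ≤ j → Nat.card (ShaTor (E A B) (2 ^ j)) ≤ 2 ^ (R * j)) ∧
    ∀ i : Fin 3, rk (E' i A B) ≤ R ∧ (∀ j : ℕ, Finite (ShaTor (E' i A B) (2 ^ j))) ∧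
      |Real.logb 2 (Nat.card (ShaTor (E' i A B) 2)) - 3 / 2 * Real.log (Real.log X)| ≤
        δ * Real.log (Real.log X) ∧
      ∀ j : ℕ, 1 ≤ j → Nat.card (ShaTor (E' i A B) (2 ^ j)) ≤
        2 ^ (R * j) * Nat.card (ShaTor (E' i A B) 2)

lemma E'_eq (i : Fin 3) (A B : ℤ) : E' i A B =
    Pool.Agent.TH841.LS.WI (Pool.Agent.Y676.IS.tri i A B).1 (Pool.Agent.Y676.IS.tri i A B).2 := by
  fin_cases i <;> rfl

lemma normal_of {R : ℕ} {δ : ℝ} {X : ℕ} {A B : ℤ}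
    (h : ∀ i : Fin 3, Pool.Agent.Q8.NS.OK2 R (3 / 2) δ (Real.log (Real.log X))
      (Pool.Agent.Y676.IS.tri i A B).1 (Pool.Agent.Y676.IS.tri i A B).2) : Normal R δ X A B := by
  obtain ⟨a1, a2, a3, a4, a5, a6, -, -, -, -, -⟩ := h 0
  refine ⟨a1, a2, a3, a4, a5, a6, fun i => ?_⟩
  obtain ⟨-, -, -, -, -, -, b4, b5, b6, b7, b8⟩ := h i
  rw [E'_eq]
  refine ⟨b4, b5, ?_, b8⟩
  rw [abs_le]
  constructor <;> linarith

open Classical in
/-- **Theorem.** Let `D ≠ 0` be an integer, `δ, ε > 0` real and `L` natural. There are `R` and `X₀`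
such that for all `X ≥ X₀` and all integers `N₁, N₂` of absolute value at most `X ^ L` the number of
the pairs of coprime integers `m ∈ (N₁, N₁ + X]`, `n ∈ (N₂, N₂ + X]` for which `(D m, D n)` is not
normal is at most `ε X²`. -/
theorem result (D : ℤ) (hD : D ≠ 0) (δ ε : ℝ) (hδ : 0 < δ) (hε : 0 < ε) (L : ℕ) :
    ∃ R X₀ : ℕ, ∀ (N₁ N₂ : ℤ) (X : ℕ), X₀ ≤ X → |N₁| ≤ (X : ℤ) ^ L → |N₂| ≤ (X : ℤ) ^ L →
      (((Ioc N₁ (N₁ + X) ×ˢ Ioc N₂ (N₂ + X)).filter (fun t : ℤ × ℤ =>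
        IsCoprime t.1 t.2 ∧ ¬ Normal R δ X (D * t.1) (D * t.2))).card : ℝ) ≤ ε * (X : ℝ) ^ 2 := by
  have hm : 0 < min δ 1 := lt_min hδ one_pos
  obtain ⟨R, X₀, h⟩ := Pool.Agent.Q8.NS.three_roots D hD (min δ 1) ε L hm (min_le_right _ _) hε
  refine ⟨R, X₀ + 3, fun N₁ N₂ X hX h1 h2 => ?_⟩
  have k1 : N₁.natAbs ≤ X ^ L := by
    have h3 : (N₁.natAbs : ℤ) ≤ (X : ℤ) ^ L := by rwa [Int.natCast_natAbs]
    exact_mod_cast h3
  have k2 : N₂.natAbs ≤ X ^ L := by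
    have h3 : (N₂.natAbs : ℤ) ≤ (X : ℤ) ^ L := by rwa [Int.natCast_natAbs]
    exact_mod_cast h3
  refine le_trans ?_ (h N₁ N₂ X (by omega) k1 k2)
  have hl : 0 ≤ Real.log (Real.log X) := by
    have hXr : (3 : ℝ) ≤ X := by
      have : 3 ≤ X := by omega
      exact_mod_cast this
    have l1 : 1 < Real.log X := by
      have h4 : Real.exp 1 < X := lt_of_lt_of_le (Real.exp_one_lt_d9.trans (by norm_num)) hXr
      have := Real.log_lt_log (Real.exp_pos 1) h4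
      rwa [Real.log_exp] at this
    exact (Real.log_pos l1).le
  let F : ℤ × ℤ → ℕ × ℕ := fun t => ((t.1 - N₁).toNat, (t.2 - N₂).toNat)
  rw [Nat.cast_le]
  refine card_le_card_of_injOn F ?_ ?_
  · intro t ht
    obtain ⟨ht1, ht2, ht3⟩ := mem_filter.1 (mem_coe.1 ht)
    rw [mem_product, mem_Ioc, mem_Ioc] at ht1
    have e1 : N₁ + ((F t).1 : ℤ) = t.1 := by
      change N₁ + ((t.1 - N₁).toNat : ℤ) = t.1
      omega
    have e2 : N₂ + ((F t).2 : ℤ) = t.2 := by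
      change N₂ + ((t.2 - N₂).toNat : ℤ) = t.2
      omega
    rw [mem_coe, mem_filter, mem_product, mem_Icc, mem_Icc, e1, e2]
    refine ⟨?_, ht2, fun hcon => ht3 ?_⟩
    · change (1 ≤ (t.1 - N₁).toNat ∧ (t.1 - N₁).toNat ≤ X) ∧
        (1 ≤ (t.2 - N₂).toNat ∧ (t.2 - N₂).toNat ≤ X)
      omega
    · have h5 := normal_of hcon
      obtain ⟨a1, a2, a3, a4, a5, a6, a7⟩ := h5
      refine ⟨a1, a2, a3, a4, a5, a6, fun i => ?_⟩
      obtain ⟨b1, b2, b3, b4⟩ := a7 i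
      exact ⟨b1, b2, b3.trans (mul_le_mul_of_nonneg_right (min_le_left _ _) hl), b4⟩
  · intro t ht t' ht' he
    obtain ⟨ht1, -, -⟩ := mem_filter.1 (mem_coe.1 ht)
    obtain ⟨ht1', -, -⟩ := mem_filter.1 (mem_coe.1 ht')
    rw [mem_product, mem_Ioc, mem_Ioc] at ht1 ht1'
    have e1 : (t.1 - N₁).toNat = (t'.1 - N₁).toNat := congrArg Prod.fst he
    have e2 : (t.2 - N₂).toNat = (t'.2 - N₂).toNat := congrArg Prod.snd he
    exact Prod.ext (by omega) (by omega)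

end Pool.Agent.Results.MP_e23604_nt.NormalOrderPairs
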