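import Pool.Agent.Q8.NS.Pencil

/-!
# The normal order of the 2-torsion of the Tate-Shafarevich groups in one-parameter families

Let `A = D(t) u₀(t)`, `B = D(t) u₁(t)`, where `u₀`, `u₁`, `u₂ = u₀ - u₁` are polynomials with
integer coefficients, `u_k` a constant times a product of `n_k` irreducible polynomials, and
`D = c ∏ g_i`. Let `E : y² = x (x - A) (x - B)` and let `E'` be its quotient by the subgroup
generated by `(0, 0)`. If `2 n_k < n₀ + n₁ + n₂` for all `k` (or under a weaker balance condition),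
then for almost all `t` in short intervals: the ranks of `E` and `E'` are at most `R`,
`#Ш(E)[2 ^ j] ≤ 2 ^ (R j)` for all `j`, while the dimension of `Ш(E')[2]` over the field of two
elements is `(κ + O(δ)) log log M`, and `#Ш(E')[2 ^ j] ≤ 2 ^ (R j) #Ш(E')[2]` for all `j`.
-/

set_option autoImplicit false

namespace Pool.Agent.Results.MP_e23604_nt.NormalOrderPencils

open WeierstrassCurve Finset Polynomial Pool.Agent.TH841.SH.D

/-- the curve `y² = x (x - A) (x - B)` -/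
def E (A B : ℤ) : WeierstrassCurve ℚ := ⟨0, -((A : ℚ) + B), 0, (A : ℚ) * B, 0⟩

/-- the quotient of `y² = x (x - A) (x - B)` by its subgroup generated by `(0, 0)`: the curve
`y² = x³ + 2 (A + B) x² + (A - B)² x` -/
def E' (A B : ℤ) : WeierstrassCurve ℚ := ⟨0, 2 * ((A : ℚ) + B), 0, ((A : ℚ) - B) ^ 2, 0⟩

/-- The pair `(A, B)` is normal: `E A B` is an elliptic curve, all its groups `Ш[2 ^ j]` are finite,
of order at most `2 ^ (R j)`, and its rank is at most `R`; the 2-isogenous curve `E' A B` has rank at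
most `R`, finite groups `Ш[2 ^ j]`, the dimension of `Ш[2]` over the field of two elements differs
from `κ log log M` by at most `δ log log M`, and the order of `Ш[2 ^ j]` is at most
`2 ^ (R j)` times the order of `Ш[2]`. -/
def Normal (R : ℕ) (κ δ : ℝ) (M : ℕ) (A B : ℤ) : Prop :=
  A ≠ 0 ∧ B ≠ 0 ∧ A ≠ B ∧ rk (E A B) ≤ R ∧ (∀ j : ℕ, Finite (ShaTor (E A B) (2 ^ j))) ∧
    (∀ j : ℕ, 1 ≤ j → Nat.card (ShaTor (E A B) (2 ^ j)) ≤ 2 ^ (R * j)) ∧
    rk (E' A B) ≤ R ∧ (∀ j : ℕ, Finite (ShaTor (E' A B) (2 ^ j))) ∧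
    |Real.logb 2 (Nat.card (ShaTor (E' A B) 2)) - κ * Real.log (Real.log M)| ≤
      δ * Real.log (Real.log M) ∧
    ∀ j : ℕ, 1 ≤ j → Nat.card (ShaTor (E' A B) (2 ^ j)) ≤
      2 ^ (R * j) * Nat.card (ShaTor (E' A B) 2)

/-- `u_k = a_k ∏ f_{k,i}` -/
noncomputable def u {n : Fin 3 → ℕ} (a : Fin 3 → ℤ) (f : ∀ k : Fin 3, Fin (n k) → ℤ[X])
    (k : Fin 3) : ℤ[X] := C (a k) * ∏ i, f k i

/-- `D = c ∏ g_i` -/
noncomputable def D {m : ℕ} (c : ℤ) (g : Fin m → ℤ[X]) : ℤ[X] := C c * ∏ i, g i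

/-- `v` is a square modulo `f` in `ℚ[t]` -/
def SqMod (f v : ℤ[X]) : Prop := ∃ q : ℚ[X], f.map (Int.castRingHom ℚ) ∣
  (q ^ 2 - v.map (Int.castRingHom ℚ))

/-- `- D u₁`, `- D u₀`, `D u₀` -/
noncomputable def v {n : Fin 3 → ℕ} {m : ℕ} (a : Fin 3 → ℤ) (f : ∀ k : Fin 3, Fin (n k) → ℤ[X])
    (c : ℤ) (g : Fin m → ℤ[X]) : Fin 3 → ℤ[X] :=
  ![-(D c g * u a f 1), -(D c g * u a f 0), D c g * u a f 0]

open Classical in
/-- the constant `κ = n₀ + n₁ - (n₂ + s) / 2 + r / 2`, where `s` is the number of the factors of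
`u₂` modulo which `D u₀` is a square, and `r` the number of the `g_i` modulo which `u₀ u₁` is not
a square -/
noncomputable def κ {n : Fin 3 → ℕ} {m : ℕ} (a : Fin 3 → ℤ) (f : ∀ k : Fin 3, Fin (n k) → ℤ[X])
    (c : ℤ) (g : Fin m → ℤ[X]) : ℝ :=
  (n 0 : ℝ) + n 1 -
    ((n 2 : ℝ) + (univ.filter (fun i => SqMod (f 2 i) (D c g * u a f 0))).card) / 2 +
    ((univ.filter (fun i => ¬ SqMod (g i) (u a f 0 * u a f 1))).card : ℝ) / 2

open Classical in
/-- the balance condition: `2 n_k + s_k ≤ n₀ + n₁ + n₂` for all `k`, where `s_k` is the number of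
the factors `f_{k,i}` modulo which `v_k` is a square -/
def Balanced {n : Fin 3 → ℕ} {m : ℕ} (a : Fin 3 → ℤ) (f : ∀ k : Fin 3, Fin (n k) → ℤ[X])
    (c : ℤ) (g : Fin m → ℤ[X]) : Prop :=
  ∀ k, 2 * n k + (univ.filter (fun i => SqMod (f k i) (v a f c g k))).card ≤ n 0 + n 1 + n 2

lemma normal_of {R : ℕ} {κ δ : ℝ} {M : ℕ} {A B : ℤ}
    (h : Pool.Agent.Q8.NS.OK2 R κ δ (Real.log (Real.log M)) A B) : Normal R κ δ M A B := by
  obtain ⟨a1, a2, a3, a4, a5, a6, b4, b5, b6, b7, b8⟩ := h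
  have e : Pool.Agent.TH841.LS.WI A B = E' A B := rfl
  rw [e] at b6 b7
  refine ⟨a1, a2, a3, a4, a5, a6, b4, b5, ?_, b8⟩
  rw [abs_le]
  constructor <;> linarith

open Classical in
/-- **Theorem.** Let `u_k = a_k ∏_{i < n_k} f_{k,i}`, `k = 0, 1, 2`, with `u₀ - u₁ = u₂`, and
`D = c ∏_{i < m} g_i`, where `a_k`, `c` are nonzero and the `n₀ + n₁ + n₂ + m` polynomials
`f_{k,i}`, `g_i` with integer coefficients are irreducible of positive degree and pairwise
non-associated; assume that `2 n_k < n₀ + n₁ + n₂` for all `k`, or the balance condition. For all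
`δ, ε > 0` and `L` there are `R` and `M₀` such that for `M ≥ M₀` and `|N| ≤ M ^ L` the number of the
integers `N < t ≤ N + M` for which `((D u₀)(t), (D u₁)(t))` is not normal is at most `ε M`. -/
theorem result (n : Fin 3 → ℕ) (m : ℕ) (a : Fin 3 → ℤ) (f : ∀ k : Fin 3, Fin (n k) → ℤ[X])
    (c : ℤ) (g : Fin m → ℤ[X]) (ha : ∀ k, a k ≠ 0) (hc : c ≠ 0)
    (hf : ∀ k i, Irreducible (f k i) ∧ 0 < (f k i).natDegree)
    (hg : ∀ i, Irreducible (g i) ∧ 0 < (g i).natDegree)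
    (hff : ∀ k i l j, (⟨k, i⟩ : Σ k : Fin 3, Fin (n k)) ≠ ⟨l, j⟩ → ¬ Associated (f k i) (f l j))
    (hgg : ∀ i j, i ≠ j → ¬ Associated (g i) (g j)) (hfg : ∀ k i j, ¬ Associated (f k i) (g j))
    (hu : u a f 0 - u a f 1 = u a f 2)
    (hn : (∀ k, 2 * n k < n 0 + n 1 + n 2) ∨ Balanced a f c g)
    (δ ε : ℝ) (L : ℕ) (hδ : 0 < δ) (hε : 0 < ε) :
    ∃ R M₀ : ℕ, ∀ (N : ℤ) (M : ℕ), M₀ ≤ M → |N| ≤ (M : ℤ) ^ L →
      (((Ioc N (N + (M : ℤ))).filter (fun t => ¬ Normal R (κ a f c g) δ M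
        ((D c g * u a f 0).eval t) ((D c g * u a f 1).eval t))).card : ℝ) ≤ ε * M := by
  have hirr : Pool.Agent.TH841.PT.Irr (Pool.Agent.TH841.TR.allf g f) := by
    refine ⟨?_, ?_, ?_⟩
    · rintro (x | i)
      · exact (hf x.1 x.2).1
      · exact (hg i).1
    · rintro (x | i)
      · exact (hf x.1 x.2).2
      · exact (hg i).2
    · rintro (x | i) (y | j) hxy
      · exact hff x.1 x.2 y.1 y.2 (fun h => hxy (congrArg Sum.inl h))
      · exact hfg x.1 x.2 j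
      · exact fun h => hfg y.1 y.2 i h.symm
      · exact hgg i j (fun h => hxy (congrArg Sum.inr h))
  have hn' : (∀ k, 2 * n k < n 0 + n 1 + n 2) ∨
      Pool.Agent.TH841.TR.Bal (Pool.Agent.TH841.LS.DG c g) a f := by
    rcases hn with h | h
    · exact Or.inl h
    · exact Or.inr (Pool.Agent.TH841.TR.bal_of (v := v a f c g) rfl rfl rfl fun k => h k)
  obtain ⟨R, M₀, h⟩ := Pool.Agent.Q8.NS.pencil a f c g ha hc hirr hu hn' δ ε L hδ hε
  refine ⟨R, M₀, fun N M hM hN => le_trans ?_ (h N M hM hN)⟩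
  rw [Nat.cast_le]
  refine card_le_card fun t ht => ?_
  obtain ⟨ht1, ht2⟩ := mem_filter.1 ht
  exact mem_filter.2 ⟨ht1, fun hcon => ht2 (normal_of hcon)⟩

end Pool.Agent.Results.MP_e23604_nt.NormalOrderPencils
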