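import Mathlib
import Pool.Agent.W672.FK.Lowf
import Pool.Agent.W307.RT.Tors
import Pool.Agent.Y679.Cr.Conv
import Pool.Agent.Q8.CD.Mom
import Pool.Agent.Q8.CD.High
import Pool.Agent.Q8.CD.Lim

/-!
# The Tate-Shafarevich groups of all the quadratic twists, by conductor

All elliptic curves `E` over `ℚ` with full rational 2-torsion ordered by the conductor, without any
bound on the height or on the discriminant, and their quadratic twists `E^d`, uniformly in `d`. The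
average of `(2 ^ rank(E^d) * #Ш(E^d)[2 ^ k] ^ (1 / k)) ^ θ` is at most `C 128 ^ ω(d)` for `θ < 2 / 3`,
uniformly in `k` and for `|d|` at most an arbitrary power of the bound of the conductor. There is one
set of curves of density zero, the same for all `d`, such that over the other curves this holds for
all `θ > 0` with the bound `C (16 * 512 ^ θ) ^ ω(d)`; and for every `d` the upper density of the curves
with `rank E^d + corank Ш(E^d)[2^∞] ≥ r` is smaller than any exponential `B ^ (-r)`.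
-/

set_option autoImplicit false

namespace Pool.Agent.Results.MP_e23604_nt.AllTwistsByConductor

open Finset Filter Topology

open Pool.Agent.TH841.SH.D (Sha ShaTor HasDiv rk)

/-- the curve `y² = x³ + A x + B` over `ℚ` -/
def curve (A B : ℤ) : WeierstrassCurve ℚ := ⟨0, 0, 0, (A : ℚ), (B : ℚ)⟩

/-- the twist `y² = x³ + A d² x + B d³` of `y² = x³ + A x + B` by `d` -/
def E (d : ℤ) (c : ℤ × ℤ) : WeierstrassCurve ℚ := curve (d ^ 2 * c.1) (d ^ 3 * c.2)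

/-- the Mordell-Weil rank -/
noncomputable def rank (d : ℤ) (c : ℤ × ℤ) : ℕ := Module.finrank ℤ (E d c).toAffine.Point

/-- The prime-to-6 part of the conductor of `y² = x³ + A x + B` (there is no prime `p` with `p⁴ ∣ A`
and `p⁶ ∣ B`): the product over the primes `p ≥ 5` dividing `4 A³ + 27 B²` of `p` (multiplicative
reduction: `p ∤ A`) or `p²` (additive reduction: `p ∣ A`) -/
def Cond6 (c : ℤ × ℤ) : ℕ :=
  ∏ p ∈ (Int.natAbs (4 * c.1 ^ 3 + 27 * c.2 ^ 2)).primeFactors.filter (fun p => 5 ≤ p),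
    if (p : ℤ) ∣ c.1 then p ^ 2 else p

/-- the admissible factors: functions with values between `1` and `2 ^ 8 * 3 ^ 5`, for instance the
part of the conductor composed of the primes 2 and 3, or `f = 1` -/
def Factor (f : ℤ × ℤ → ℕ) : Prop := ∀ c, 1 ≤ f c ∧ f c ≤ 2 ^ 8 * 3 ^ 5

/-- The pairs `(A, B)` of integers such that `4 A³ + 27 B² ≠ 0`, there is no prime `p` with
`p⁴ ∣ A` and `p⁶ ∣ B`, `Z/2 x Z/2` embeds in the group of the rational points of
`y² = x³ + A x + B`, and `f * Cond6 ≤ Z` (for a suitable factor `f`: the conductor is at most `Z`).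
Every elliptic curve over `ℚ` with full rational 2-torsion is isomorphic to `y² = x³ + A x + B` for
exactly one pair with the first three properties. -/
def Fam (f : ℤ × ℤ → ℕ) (Z : ℕ) : Set (ℤ × ℤ) :=
  {c : ℤ × ℤ | 4 * c.1 ^ 3 + 27 * c.2 ^ 2 ≠ 0 ∧
    (∀ p : ℕ, p.Prime → ¬ ((p : ℤ) ^ 4 ∣ c.1 ∧ (p : ℤ) ^ 6 ∣ c.2)) ∧
    (∃ g : ZMod 2 × ZMod 2 →+ (curve c.1 c.2).toAffine.Point, Function.Injective g) ∧ f c * Cond6 c ≤ Z}

/-- the proportion of the curves of `S` in the family -/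
noncomputable def proportion (f : ℤ × ℤ → ℕ) (S : Set (ℤ × ℤ)) (Z : ℕ) : ℝ :=
  ((Fam f Z ∩ S).ncard : ℝ) / (Fam f Z).ncard

/-- the weight `2 ^ rank * #Ш[2 ^ k] ^ (1 / k)` of the twist by `d` -/
noncomputable def weight (d : ℤ) (k : ℕ) (c : ℤ × ℤ) : ℝ :=
  (2 : ℝ) ^ rank d c * (Nat.card (ShaTor (E d c) (2 ^ k)) : ℝ) ^ ((1 : ℝ) / k)

/-- the curves whose twist by `d` has `rank + corank Ш[2 ^ ∞] ≥ r`: `Ш` has a subgroup
`(ℚ₂ / ℤ₂) ^ m` with `r ≤ rank + m` -/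
def High (d : ℤ) (r : ℕ) : Set (ℤ × ℤ) := {c | ∃ m : ℕ, HasDiv (E d c) m ∧ r ≤ rank d c + m}

/-- the number of the primes dividing `d` -/
def ω (d : ℤ) : ℕ := d.natAbs.primeFactors.card

/-- the property without the size -/
def Pr (c : ℤ × ℤ) : Prop := 4 * c.1 ^ 3 + 27 * c.2 ^ 2 ≠ 0 ∧
    (∀ p : ℕ, p.Prime → ¬ ((p : ℤ) ^ 4 ∣ c.1 ∧ (p : ℤ) ^ 6 ∣ c.2)) ∧
    (∃ g : ZMod 2 × ZMod 2 →+ (curve c.1 c.2).toAffine.Point, Function.Injective g)

lemma good : Pool.Agent.Y679.Cr.Good Pr := by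
  classical
  refine ⟨fun c hc => ⟨?_, ?_⟩, fun H c hc => ?_, Pool.Agent.W672.FK.lowf⟩
  · exact Pool.Agent.Y679.Cr.isMin_of hc.1 hc.2.1
  · exact Pool.Agent.Y679.Cr.full_of (Pool.Agent.W307.RT.tors_iff.2 hc.2.2)
  · unfold Pool.Agent.W307.RT.Cv at hc
    obtain ⟨-, h1, -, -, h2, h3⟩ := mem_filter.1 hc
    exact ⟨h1, h2, Pool.Agent.W307.RT.tors_iff.1 h3⟩

lemma cond_eq (c : ℤ × ℤ) : Pool.Agent.Y679.Cr.cs c = Cond6 c := by
  unfold Pool.Agent.Y679.Cr.cs Pool.Agent.H925R.Szpiro.condS Cond6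
  rw [Pool.Agent.Y679.Cr.D_neg, Int.natAbs_neg]
  refine prod_congr rfl fun p _ => ?_
  by_cases h : (p : ℤ) ∣ c.1
  · rw [if_pos h, if_pos (Int.dvd_neg.2 h)]
  · rw [if_neg h, if_neg fun h' => h (Int.dvd_neg.1 h')]

lemma bdd {f : ℤ × ℤ → ℕ} (hf : Factor f) : Pool.Agent.Y679.Cr.Bdd f :=
  fun c => ⟨(hf c).1, (hf c).2.trans (by norm_num)⟩

lemma Fam_eq (f : ℤ × ℤ → ℕ) (Z : ℕ) : Fam f Z = Pool.Agent.Y679.Cr.Gm Pr f Z := by
  ext c
  unfold Fam Pool.Agent.Y679.Cr.Gm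
  rw [Set.mem_ofPred_eq, Set.mem_ofPred_eq, cond_eq]
  exact ⟨fun h => ⟨⟨h.1, h.2.1, h.2.2.1⟩, h.2.2.2⟩, fun h => ⟨h.1.1, h.1.2.1, h.1.2.2, h.2⟩⟩

lemma Fam_fin {f : ℤ × ℤ → ℕ} (hf : Factor f) (Z : ℕ) : (Fam f Z).Finite := by
  rw [Fam_eq]
  exact Pool.Agent.Y679.Cr.Gm_fin good (bdd hf) Z

/-- from the library: sums over a set of curves -/
lemma conv {S : Finset (ℤ × ℤ)} {d : ℤ} {n : ℤ × ℤ → ℝ} {M θ : ℝ} (hθ : 0 < θ)
    (hn : ∀ c ∈ S, Pool.Agent.TH841.SH.Bd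
      (Pool.Agent.W307.RT.Sh (d ^ 2 * c.1) (d ^ 3 * c.2)) (n c))
    (hM : ∑ c ∈ S, n c ^ θ ≤ M) :
    (∀ c ∈ S, ∀ k : ℕ, Finite (ShaTor (E d c) (2 ^ k))) ∧
    (∀ k : ℕ, 1 ≤ k → ∑ c ∈ S, weight d k c ^ θ ≤ M) ∧
    ∀ r : ℕ, ∀ T ⊆ S, (∀ c ∈ T, c ∈ High d r) → (T.card : ℝ) ≤ M / ((2 : ℝ) ^ r) ^ θ := by
  have hcurve : ∀ c : ℤ × ℤ, E d c = Pool.Agent.W307.RT.Sh (d ^ 2 * c.1) (d ^ 3 * c.2) :=
    fun c => rfl
  obtain ⟨h1, h2, -⟩ := Pool.Agent.TH498.CO.family_real S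
    (fun c => Pool.Agent.W307.RT.Sh (d ^ 2 * c.1) (d ^ 3 * c.2)) n M θ hθ hn hM
  refine ⟨fun c hc k => h1 c hc k, fun k hk => h2 k hk, fun r T hT hTr => ?_⟩
  have hp : (0 : ℝ) < ((2 : ℝ) ^ r) ^ θ := by positivity
  rw [le_div_iff₀ hp]
  refine le_trans ?_ hM
  refine le_trans ?_ (sum_le_sum_of_subset_of_nonneg hT fun c hc _ =>
    Real.rpow_nonneg (le_trans zero_le_one (Pool.Agent.TH498.CO.one_le_of_bd (hn c hc))) θ)
  rw [← nsmul_eq_mul]
  refine card_nsmul_le_sum _ _ _ fun c hc => ?_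
  obtain ⟨m, h3, h4⟩ := hTr c hc
  have h5 := (hn c (hT hc)).div_le (r := rank d c) le_rfl h3
  refine Real.rpow_le_rpow (by positivity) (le_trans ?_ h5) hθ.le
  exact pow_le_pow_right₀ (by norm_num) h4

/-- **Theorem.** Order the elliptic curves over `ℚ` with full rational 2-torsion by the conductor
(times an arbitrary factor as in `Factor`), with no bound on the height or on the discriminant, and
let `E^d` be the quadratic twist by `d`.
(1) There are finitely many curves of size at most `Z`, and for large `Z` their number is between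
`c Z ^ (2/3)` and `C Z ^ (2/3)`.
(2) Let `0 < θ < 2 / 3` and `A` be given. There is `C` such that for all `Z` and all nonzero `d` with
`|d| ≤ max (Z, 2) ^ A`: the groups `Ш(E^d)[2 ^ k]` are finite, the average of
`(2 ^ rank * #Ш[2 ^ k] ^ (1 / k)) ^ θ` for `E^d` over the curves `E` of size at most `Z` is at most
`C 128 ^ ω(d)` for all `k ≥ 1`, and for all `r` the proportion of the `E` with
`rank E^d + corank Ш(E^d)[2 ^ ∞] ≥ r` is at most `C 128 ^ ω(d) 2 ^ (-θ r)`.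
(3) There is ONE set `X` of curves `E`, of density zero, such that for all `θ > 0` and `A` there is `C`
such that for all `Z`, all nonzero `d` with `|d| ≤ max (Z, 2) ^ A` and all `k ≥ 1` the sum of
`(2 ^ rank * #Ш[2 ^ k] ^ (1 / k)) ^ θ` for `E^d` over the `E` of size at most `Z` outside of `X` is at most
`C (16 * 512 ^ θ) ^ ω(d)` times the number of all the curves of size at most `Z`.
(4) For every nonzero `d` and every real `B` the upper density of the curves with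
`rank E^d + corank Ш(E^d)[2 ^ ∞] ≥ r`, times `B ^ r`, tends to `0` as `r → ∞`. -/
theorem result :
    (∃ c C : ℝ, 0 < c ∧ ∀ f : ℤ × ℤ → ℕ, Factor f → (∀ Z : ℕ, (Fam f Z).Finite) ∧
      ∀ᶠ Z : ℕ in atTop, c * (Z : ℝ) ^ ((2 : ℝ) / 3) ≤ ((Fam f Z).ncard : ℝ) ∧
        ((Fam f Z).ncard : ℝ) ≤ C * (Z : ℝ) ^ ((2 : ℝ) / 3)) ∧
    (∀ θ A : ℝ, 0 < θ → θ < 2 / 3 → 0 ≤ A → ∃ C : ℝ, ∀ f : ℤ × ℤ → ℕ, Factor f →
      ∀ (Z : ℕ) (d : ℤ), d ≠ 0 → (d.natAbs : ℝ) ≤ ((max Z 2 : ℕ) : ℝ) ^ A →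
      (∀ c ∈ Fam f Z, ∀ k : ℕ, Finite (ShaTor (E d c) (2 ^ k))) ∧
      (∀ (k : ℕ) (S : Finset (ℤ × ℤ)), 1 ≤ k → (S : Set (ℤ × ℤ)) = Fam f Z →
        ∑ c ∈ S, weight d k c ^ θ ≤ C * 128 ^ ω d * S.card) ∧
      ∀ r : ℕ, proportion f (High d r) Z ≤ C * 128 ^ ω d / ((2 : ℝ) ^ r) ^ θ) ∧
    ∃ X : Set (ℤ × ℤ), (∀ f : ℤ × ℤ → ℕ, Factor f → Tendsto (proportion f X) atTop (𝓝 0)) ∧
      (∀ θ A : ℝ, 0 < θ → 0 ≤ A → ∃ C : ℝ, ∀ f : ℤ × ℤ → ℕ, Factor f →
        ∀ (Z : ℕ) (d : ℤ), d ≠ 0 → (d.natAbs : ℝ) ≤ ((max Z 2 : ℕ) : ℝ) ^ A →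
        ∀ (k : ℕ) (S : Finset (ℤ × ℤ)), 1 ≤ k → (S : Set (ℤ × ℤ)) = Fam f Z \ X →
        ∑ c ∈ S, weight d k c ^ θ ≤ C * (16 * 512 ^ θ) ^ ω d * ((Fam f Z).ncard : ℝ)) ∧
      ∀ f : ℤ × ℤ → ℕ, Factor f → ∀ d : ℤ, d ≠ 0 → ∀ B : ℝ,
        Tendsto (fun r : ℕ => B ^ r * limsup (proportion f (High d r)) atTop) atTop (𝓝 0) := by
  classical
  obtain ⟨n, X, hX0, hXn, hX⟩ := Pool.Agent.Q8.CD.high_tw good
  have hpX : ∀ f : ℤ × ℤ → ℕ, Factor f → Tendsto (proportion f X) atTop (𝓝 0) := by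
    intro f hf
    have e : proportion f X = fun Z : ℕ =>
        ((Pool.Agent.Y679.Cr.Gm Pr f Z ∩ X).ncard : ℝ) / (Pool.Agent.Y679.Cr.Gm Pr f Z).ncard := by
      funext Z
      unfold proportion
      rw [Fam_eq]
    rw [e]
    exact hX0 f (bdd hf)
  refine ⟨?_, fun θ A hθ0 hθ hA => ?_, X, hpX, fun θ A hθ hA => ?_, fun f hf d hd B => ?_⟩
  · obtain ⟨c, Z0, hc, g1⟩ := Pool.Agent.Y679.Cr.Gm_ge good
    obtain ⟨C, Z1, -, g2⟩ := Pool.Agent.Y679.Cr.Gm_up good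
    refine ⟨c, C, hc, fun f hf => ⟨fun Z => Fam_fin hf Z, ?_⟩⟩
    filter_upwards [eventually_ge_atTop Z0, eventually_ge_atTop Z1] with Z u1 u2
    rw [Fam_eq]
    exact ⟨g1 f (bdd hf) Z u1, g2 f (bdd hf) Z u2⟩
  · obtain ⟨C, hC, h⟩ := Pool.Agent.Q8.CD.momN_tw good hθ0 hθ hA
    refine ⟨C, fun f hf Z d hd hdZ => ?_⟩
    obtain ⟨V, hV⟩ : ∃ V : ℝ, V = 128 ^ ω d := ⟨_, rfl⟩
    have hV0 : 0 < V := by rw [hV]; positivity
    have hfin := Fam_fin hf Z
    have hT : ((hfin.toFinset : Finset (ℤ × ℤ)) : Set (ℤ × ℤ)) ⊆ Pool.Agent.Y679.Cr.Gm Pr f Z := by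
      rw [Set.Finite.coe_toFinset, Fam_eq]
    obtain ⟨n', h1, h2⟩ := h f (bdd hf) Z hfin.toFinset hT d hd hdZ
    have hcard : ((Pool.Agent.Y679.Cr.Gm Pr f Z).ncard : ℝ) = (hfin.toFinset.card : ℝ) := by
      rw [← Fam_eq, Set.ncard_eq_toFinset_card _ hfin]
    rw [hcard] at h2
    obtain ⟨g1, g2, g3⟩ := conv hθ0 h1 h2
    refine ⟨fun c hc k => g1 c (hfin.mem_toFinset.2 hc) k, fun k S hk hS => ?_, fun r => ?_⟩
    · have hSe : S = hfin.toFinset := by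
        rw [← coe_inj, hS, Set.Finite.coe_toFinset]
      rw [hSe]
      exact g2 k hk
    · unfold proportion
      have h5 := g3 r (hfin.toFinset.filter fun c => c ∈ High d r) (filter_subset _ _)
        fun c hc => (mem_filter.1 hc).2
      have h6 : ((Fam f Z ∩ High d r).ncard : ℝ) =
          ((hfin.toFinset.filter fun c => c ∈ High d r).card : ℝ) := by
        rw [← Set.ncard_coe_finset]
        congr 2
        ext c
        rw [Set.mem_inter_iff, mem_coe, mem_filter, Set.Finite.mem_toFinset]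
      rw [h6]
      have h7 : ((Fam f Z).ncard : ℝ) = (hfin.toFinset.card : ℝ) := by rw [← hcard, Fam_eq]
      rw [h7]
      refine div_le_of_le_mul₀ (Nat.cast_nonneg _) (by positivity) (h5.trans (le_of_eq ?_))
      unfold ω
      ring
  · obtain ⟨C, hC, h⟩ := hX θ hθ A hA
    refine ⟨C, fun f hf Z d hd hdZ k S hk hS => ?_⟩
    have hT : (S : Set (ℤ × ℤ)) ⊆ Pool.Agent.Y679.Cr.Gm Pr f Z \ X := by
      rw [hS, Fam_eq]
    rw [Fam_eq]
    exact (conv hθ (fun c hc => (hXn c (hT (mem_coe.2 hc)).1.1).1 d hd)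
      (h f (bdd hf) Z S hT d hd hdZ)).2.1 k hk
  · obtain ⟨A, hA⟩ : ∃ A : ℕ, A = d.natAbs := ⟨_, rfl⟩
    have hdZ : ∀ Z : ℕ, (d.natAbs : ℝ) ≤ ((max Z 2 : ℕ) : ℝ) ^ (A : ℝ) := by
      intro Z
      rw [← hA, Real.rpow_natCast]
      have h1 : A ≤ 2 ^ A := Nat.lt_two_pow_self.le
      have h2 : 2 ^ A ≤ (max Z 2) ^ A := Nat.pow_le_pow_left (le_max_right _ _) A
      exact_mod_cast h1.trans h2
    have hfin := fun Z => Fam_fin hf Z
    refine Pool.Agent.Q8.CD.tail_tendsto (L := fun r => limsup (proportion f (High d r)) atTop)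
      (fun r => ?_) (fun k hk => ?_) B
    · refine Pool.Agent.Q8.CD.limsup_nonneg (fun Z => by unfold proportion; positivity)
        fun Z => ?_
      unfold proportion
      refine div_le_one_of_le₀ ?_ (Nat.cast_nonneg _)
      exact_mod_cast Set.ncard_le_ncard Set.inter_subset_left (hfin Z)
    · have hk0 : (0 : ℝ) < (k : ℝ) := by exact_mod_cast hk
      obtain ⟨C, hC, h⟩ := hX (k : ℝ) hk0 A (Nat.cast_nonneg _)
      obtain ⟨V, hV⟩ : ∃ V : ℝ, V = (16 * 512 ^ (k : ℝ)) ^ ω d := ⟨_, rfl⟩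
      have hV0 : 0 < V := by rw [hV]; positivity
      refine ⟨C * V, fun r => ?_⟩
      refine Pool.Agent.Q8.CD.limsup_le_of_dens (fun Z => by unfold proportion; positivity)
        (hpX f hf) fun Z => ?_
      have hsub : (Fam f Z \ X).Finite := (hfin Z).subset Set.sdiff_subset
      have hT : ((hsub.toFinset : Finset (ℤ × ℤ)) : Set (ℤ × ℤ)) ⊆
          Pool.Agent.Y679.Cr.Gm Pr f Z \ X := by
        rw [Set.Finite.coe_toFinset, Fam_eq]
      have h1 := (conv hk0 (fun c hc => (hXn c (hT (mem_coe.2 hc)).1.1).1 d hd)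
        (h f (bdd hf) Z hsub.toFinset hT d hd (hdZ Z))).2.2 r
        (hsub.toFinset.filter fun c => c ∈ High d r) (filter_subset _ _)
        fun c hc => (mem_filter.1 hc).2
      have h2 : ((hsub.toFinset.filter fun c => c ∈ High d r).card : ℝ) ≤
          C * V * ((Fam f Z).ncard : ℝ) / 2 ^ (k * r) := by
        have hnc : ((Fam f Z).ncard : ℝ) = ((Pool.Agent.Y679.Cr.Gm Pr f Z).ncard : ℝ) := by
          rw [Fam_eq]
        rw [hV, hnc]
        refine h1.trans (le_of_eq ?_)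
        have e : ((2 : ℝ) ^ r) ^ (k : ℝ) = 2 ^ (k * r) := by
          rw [Real.rpow_natCast, ← pow_mul, mul_comm r k]
        rw [e]
        rfl
      have h3 : ((Fam f Z ∩ High d r).ncard : ℝ) ≤ ((Fam f Z ∩ X).ncard : ℝ) +
          ((hsub.toFinset.filter fun c => c ∈ High d r).card : ℝ) := by
        rw [← Set.ncard_coe_finset]
        have h4 : Fam f Z ∩ High d r ⊆ (Fam f Z ∩ X) ∪
            ((hsub.toFinset.filter fun c => c ∈ High d r : Finset (ℤ × ℤ)) : Set (ℤ × ℤ)) := by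
          intro c hc
          by_cases hcX : c ∈ X
          · exact Or.inl ⟨hc.1, hcX⟩
          · refine Or.inr ?_
            rw [mem_coe, mem_filter, Set.Finite.mem_toFinset]
            exact ⟨⟨hc.1, hcX⟩, hc.2⟩
        have h5 := Set.ncard_le_ncard h4
          (((hfin Z).subset Set.inter_subset_left).union (Finset.finite_toSet _))
        exact_mod_cast h5.trans (Set.ncard_union_le _ _)
      unfold proportion
      rcases (Nat.eq_zero_or_pos (Fam f Z).ncard) with h0 | h0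
      · rw [h0]
        simp only [Nat.cast_zero, div_zero, zero_add]
        positivity
      · have h0' : (0 : ℝ) < ((Fam f Z).ncard : ℝ) := by exact_mod_cast h0
        rw [div_le_iff₀ h0', add_mul, div_mul_cancel₀ _ h0'.ne']
        refine h3.trans (add_le_add le_rfl (h2.trans (le_of_eq ?_)))
        ring

end Pool.Agent.Results.MP_e23604_nt.AllTwistsByConductor
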