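import Mathlib
import Pool.Agent.Y667.QK.Main0
import Pool.Agent.Y667.RZ.Sha
import Pool.Agent.Y388.QK.Deg
import Pool.Agent.Y388.QK.Flip
import Pool.Agent.W672.FK.Lowf
import Pool.Agent.W307.RT.Tors
import Pool.Agent.Y679.Cr.Conv
import Pool.Agent.Y679.Cr.Dens
import Pool.Agent.Q323.CO.List

/-!
# `Ш[2 ^ ∞] = 0` for `2 ^ m` quadratic twists at the same time

All elliptic curves `E` over `ℚ` with full rational 2-torsion, ordered by the naive height, by the
absolute value of the minimal discriminant or by the conductor. For every `m` and `N` there is a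
finite list of tuples `(q_1 q'_1, ..., q_m q'_m)` of products of two primes, the `2 m` primes distinct
and larger than `N`, and `δ > 0` such that for all large `Z` for some tuple `d` of the list at least a
proportion `δ` of the curves of size at most `Z` has the following property for ALL the `2 ^ m`
quadratic twists `E^D`, `D = ∏_{i ∈ T} d_i`: the rank is zero and the Tate-Shafarevich group of `E^D`
over `ℚ` has no nonzero element of 2-power order. One tuple of the list has this property for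
arbitrarily large `Z`.
-/

set_option autoImplicit false

namespace Pool.Agent.Results.MP_e23604_nt.SimultaneousTwists

open Finset Filter Topology

open Pool.Agent.TH841.SH.D (Sha rk)

/-- the curve `y² = x³ + A x + B` over `ℚ` -/
def E (A B : ℤ) : WeierstrassCurve ℚ := ⟨0, 0, 0, (A : ℚ), (B : ℚ)⟩

/-- the absolute value of the minimal discriminant of an elliptic curve `W` over `ℚ`: the smallest
absolute value of the discriminant of a Weierstrass equation `V` with integer coefficients which is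
isomorphic to `W` over `ℚ` -/
noncomputable def minDisc (W : WeierstrassCurve ℚ) : ℕ :=
  sInf {n : ℕ | ∃ (V : WeierstrassCurve ℤ) (C : WeierstrassCurve.VariableChange ℚ),
    C • W = V.map (Int.castRingHom ℚ) ∧ n = V.Δ.natAbs}

/-- the naive height of `y² = x³ + A x + B` is at most `Z` -/
def HeightLe (c : ℤ × ℤ) (Z : ℕ) : Prop := 4 * |c.1| ^ 3 ≤ Z ∧ 27 * c.2 ^ 2 ≤ Z

/-- the minimal discriminant of `y² = x³ + A x + B` is at most `Z` in absolute value -/
def DiscLe (c : ℤ × ℤ) (Z : ℕ) : Prop := minDisc (E c.1 c.2) ≤ Z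

/-- The prime-to-6 part of the conductor of `y² = x³ + A x + B` (there is no prime `p` with `p⁴ ∣ A`
and `p⁶ ∣ B`): the product over the primes `p ≥ 5` dividing `4 A³ + 27 B²` of `p` (multiplicative
reduction: `p ∤ A`) or `p²` (additive reduction: `p ∣ A`) -/
def Cond6 (c : ℤ × ℤ) : ℕ :=
  ∏ p ∈ (Int.natAbs (4 * c.1 ^ 3 + 27 * c.2 ^ 2)).primeFactors.filter (fun p => 5 ≤ p),
    if (p : ℤ) ∣ c.1 then p ^ 2 else p

/-- the admissible factors: functions with values between `1` and `2 ^ 8 * 3 ^ 5`, for instance the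
part of the conductor composed of the primes 2 and 3, or `f = 1` -/
def Factor (f : ℤ × ℤ → ℕ) : Prop := ∀ c, 1 ≤ f c ∧ f c ≤ 2 ^ 8 * 3 ^ 5

/-- the conductor (its prime-to-6 part times the factor `f`) of `y² = x³ + A x + B` is at most `Z` -/
def CondLe (f : ℤ × ℤ → ℕ) (c : ℤ × ℤ) (Z : ℕ) : Prop := f c * Cond6 c ≤ Z

/-- The pairs `(A, B)` of integers such that `4 A³ + 27 B² ≠ 0`, there is no prime `p` with
`p⁴ ∣ A` and `p⁶ ∣ B`, `Z/2 x Z/2` embeds in the group of the rational points of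
`y² = x³ + A x + B`, and the size (`HeightLe`, `DiscLe` or `CondLe f`) is at most `Z`. Every
elliptic curve over `ℚ` with full rational 2-torsion is isomorphic to `E A B` for exactly one pair
with the first three properties. -/
def Fam (I : ℤ × ℤ → ℕ → Prop) (Z : ℕ) : Set (ℤ × ℤ) :=
  {c : ℤ × ℤ | 4 * c.1 ^ 3 + 27 * c.2 ^ 2 ≠ 0 ∧
    (∀ p : ℕ, p.Prime → ¬ ((p : ℤ) ^ 4 ∣ c.1 ∧ (p : ℤ) ^ 6 ∣ c.2)) ∧
    (∃ f : ZMod 2 × ZMod 2 →+ (E c.1 c.2).toAffine.Point, Function.Injective f) ∧ I c Z}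

/-- the proportion of the curves of `S` among the curves of size at most `Z` -/
noncomputable def proportion (I : ℤ × ℤ → ℕ → Prop) (S : Set (ℤ × ℤ)) (Z : ℕ) : ℝ :=
  ((Fam I Z ∩ S).ncard : ℝ) / (Fam I Z).ncard

lemma FamH_eq (H : ℕ) : Fam HeightLe H = (Pool.Agent.W307.RT.Cv 2 H : Set (ℤ × ℤ)) := by
  classical
  ext c
  have h : Pool.Agent.W307.RT.HasT 2 (Pool.Agent.W307.RT.Sh c.1 c.2) ↔
    ∃ f : ZMod 2 × ZMod 2 →+ (E c.1 c.2).toAffine.Point, Function.Injective f :=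
    Pool.Agent.W307.RT.tors_iff
  unfold Fam HeightLe Pool.Agent.W307.RT.Cv
  rw [Set.mem_ofPred_eq, mem_coe, mem_filter, h, mem_product, mem_Icc, mem_Icc]
  constructor
  · rintro ⟨h1, h2, h3, h4, h5⟩
    refine ⟨⟨?_, ?_⟩, h1, h4, h5, h2, h3⟩
    · rw [← abs_le]
      have h0 := abs_nonneg c.1
      rcases eq_or_lt_of_le h0 with h6 | h6
      · rw [← h6]; positivity
      · have : 1 ≤ |c.1| := h6
        nlinarith [mul_nonneg h0 h0, mul_self_nonneg (|c.1| - 1)]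
    · rw [← abs_le]
      have h0 := abs_nonneg c.2
      rw [← sq_abs] at h5
      rcases eq_or_lt_of_le h0 with h6 | h6
      · rw [← h6]; positivity
      · have : 1 ≤ |c.2| := h6
        nlinarith
  · rintro ⟨-, h1, h4, h5, h2, h3⟩
    exact ⟨h1, h2, h3, h4, h5⟩

lemma FamD_eq (D : ℕ) : Fam DiscLe D = (Pool.Agent.TH344.DS.Dv D : Set (ℤ × ℤ)) := by
  classical
  have h0 : Fam DiscLe D = Pool.Agent.W307.RS.DvS 2 D := by
    ext c
    have h : Pool.Agent.W307.RT.HasT 2 (Pool.Agent.W307.RT.Sh c.1 c.2) ↔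
        ∃ f : ZMod 2 × ZMod 2 →+ (E c.1 c.2).toAffine.Point, Function.Injective f :=
      Pool.Agent.W307.RT.tors_iff
    unfold Fam Pool.Agent.W307.RS.DvS
    rw [Set.mem_ofPred_eq, Set.mem_ofPred_eq, h]
    exact Iff.rfl
  rw [h0]
  unfold Pool.Agent.TH344.DS.Dv
  rw [dif_pos (Pool.Agent.TH344.DS.excd.1 D), Set.Finite.coe_toFinset]

/-- The number of these curves tends to infinity (ordering by height). -/
lemma tendstoH : Tendsto (fun Z : ℕ => (Fam HeightLe Z).ncard) atTop atTop := by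
  simp only [FamH_eq, Set.ncard_coe_finset]
  exact Pool.Agent.W307.RT.tendsto_of_low Pool.Agent.W672.FK.lowf

/-- The number of these curves tends to infinity (ordering by the minimal discriminant). -/
lemma tendstoD : Tendsto (fun Z : ℕ => (Fam DiscLe Z).ncard) atTop atTop := by
  have h1 := Pool.Agent.W307.RT.tendsto_of_low Pool.Agent.W672.FK.lowf
  have h2 : Tendsto (fun D : ℕ => (Pool.Agent.W307.RT.Cv 2 (D / 32)).card) atTop atTop :=
    h1.comp (Nat.tendsto_div_const_atTop (by norm_num))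
  obtain ⟨hD1, hD2, hD3⟩ := Pool.Agent.TH344.DS.excd
  refine tendsto_atTop_mono (fun D => ?_) h2
  have h3 : (Pool.Agent.TH344.DS.Dv D : Set (ℤ × ℤ)) = Pool.Agent.W307.RS.DvS 2 D := by
    unfold Pool.Agent.TH344.DS.Dv
    rw [dif_pos (hD1 D), Set.Finite.coe_toFinset]
  rw [FamD_eq, h3, ← Set.ncard_coe_finset]
  exact Set.ncard_le_ncard (Pool.Agent.W307.RS.Cv_sub Pool.Agent.W554.RS.mdl 2 (D / 32) D
    (Nat.mul_div_le D 32)) (hD1 D)

/-- The tuples `(q_1 q'_1, ..., q_m q'_m)`, where the `q_i` and `q'_i` are `2 m` distinct primes, all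
larger than `N`. -/
def Tuple {m : ℕ} (N : ℕ) (d : Fin m → ℕ) : Prop :=
  ∃ q q' : Fin m → ℕ, (∀ i, d i = q i * q' i) ∧ (∀ i, (q i).Prime ∧ N < q i) ∧
    (∀ i, (q' i).Prime ∧ N < q' i) ∧ Function.Injective q ∧ Function.Injective q' ∧
    ∀ i j, q i ≠ q' j

/-- The curves `E : y² = x³ + A x + B` such that for all the `2 ^ m` products `D = ∏_{i ∈ T} d_i` the
quadratic twist `E^D : y² = x³ + D² A x + D³ B` has rank zero and no nonzero element of 2-power order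
in the Tate-Shafarevich group over `ℚ`. -/
def AllTwists {m : ℕ} (d : Fin m → ℕ) : Set (ℤ × ℤ) :=
  {c | ∀ (T : Finset (Fin m)) (D : ℤ), D = ∏ i ∈ T, (d i : ℤ) →
    rk (E (D ^ 2 * c.1) (D ^ 3 * c.2)) = 0 ∧
    ∀ (k : ℕ) (x : Sha (E (D ^ 2 * c.1) (D ^ 3 * c.2))), (2 ^ k : ℕ) • x = 0 → x = 0}

lemma tup_pos {m N : ℕ} {d : Fin m → ℕ} (h : Tuple N d) (i : Fin m) : (d i : ℤ) ≠ 0 := by
  obtain ⟨q, q', h1, h2, h3, -⟩ := h
  rw [h1 i]
  exact_mod_cast mul_ne_zero (h2 i).1.ne_zero (h3 i).1.ne_zero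

lemma good_of {m N : ℕ} {d : Fin m → ℕ} (hd : Tuple N d) {c : ℤ × ℤ}
    (hD : 4 * c.1 ^ 3 + 27 * c.2 ^ 2 ≠ 0)
    (hT : ∃ f : ZMod 2 × ZMod 2 →+ (E c.1 c.2).toAffine.Point, Function.Injective f)
    (h : Pool.Agent.Y667.QK.TwS (fun j => (d j : ℤ)) c) : c ∈ AllTwists d := by
  rintro T D rfl
  have hp : ∏ i ∈ T, (d i : ℤ) ≠ 0 := prod_ne_zero_iff.2 fun i _ => tup_pos hd i
  exact Pool.Agent.Y667.SHA.sha_zero4
    (c := ((∏ i ∈ T, (d i : ℤ)) ^ 2 * c.1, (∏ i ∈ T, (d i : ℤ)) ^ 3 * c.2))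
    (Pool.Agent.Y723.QT.disc_q hp hD)
    (Pool.Agent.Y667.QK.hasT_tw hp hD (Pool.Agent.W307.RT.tors_iff.2 hT)) (h T).1 (h T).2.le

/-- the property without the size -/
def Pr (c : ℤ × ℤ) : Prop := 4 * c.1 ^ 3 + 27 * c.2 ^ 2 ≠ 0 ∧
    (∀ p : ℕ, p.Prime → ¬ ((p : ℤ) ^ 4 ∣ c.1 ∧ (p : ℤ) ^ 6 ∣ c.2)) ∧
    (∃ g : ZMod 2 × ZMod 2 →+ (E c.1 c.2).toAffine.Point, Function.Injective g)

lemma good : Pool.Agent.Y679.Cr.Good Pr := by
  classical
  refine ⟨fun c hc => ⟨?_, ?_⟩, fun H c hc => ?_, Pool.Agent.W672.FK.lowf⟩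
  · exact Pool.Agent.Y679.Cr.isMin_of hc.1 hc.2.1
  · exact Pool.Agent.Y679.Cr.full_of (Pool.Agent.W307.RT.tors_iff.2 hc.2.2)
  · unfold Pool.Agent.W307.RT.Cv at hc
    obtain ⟨-, h1, -, -, h2, h3⟩ := mem_filter.1 hc
    exact ⟨h1, h2, Pool.Agent.W307.RT.tors_iff.1 h3⟩

lemma cond_eq (c : ℤ × ℤ) : Pool.Agent.Y679.Cr.cs c = Cond6 c := by
  unfold Pool.Agent.Y679.Cr.cs Pool.Agent.H925R.Szpiro.condS Cond6
  rw [Pool.Agent.Y679.Cr.D_neg, Int.natAbs_neg]
  refine prod_congr rfl fun p _ => ?_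
  by_cases h : (p : ℤ) ∣ c.1
  · rw [if_pos h, if_pos (Int.dvd_neg.2 h)]
  · rw [if_neg h, if_neg fun h' => h (Int.dvd_neg.1 h')]

lemma bdd {f : ℤ × ℤ → ℕ} (hf : Factor f) : Pool.Agent.Y679.Cr.Bdd f :=
  fun c => ⟨(hf c).1, (hf c).2.trans (by norm_num)⟩

lemma FamC_eq (f : ℤ × ℤ → ℕ) (Z : ℕ) : Fam (CondLe f) Z = Pool.Agent.Y679.Cr.Gm Pr f Z := by
  ext c
  unfold Fam CondLe Pool.Agent.Y679.Cr.Gm
  rw [Set.mem_ofPred_eq, Set.mem_ofPred_eq, cond_eq]
  exact ⟨fun h => ⟨⟨h.1, h.2.1, h.2.2.1⟩, h.2.2.2⟩, fun h => ⟨h.1.1, h.1.2.1, h.1.2.2, h.2⟩⟩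

/-- the curves with the required 2-Selmer groups, in the three orderings -/
lemma key (I : ℤ × ℤ → ℕ → Prop)
    (hI : I = HeightLe ∨ I = DiscLe ∨ (∃ f : ℤ × ℤ → ℕ, Factor f ∧ I = CondLe f)) :
    (∀ Z : ℕ, (Fam I Z).Finite) ∧ Tendsto (fun Z : ℕ => (Fam I Z).ncard) atTop atTop ∧
    ∀ m N : ℕ, ∃ L : Finset (Fin m → ℕ), (∀ d ∈ L, Tuple N d) ∧ ∃ δ : ℝ, 0 < δ ∧
      ∀ᶠ Z : ℕ in atTop, ∃ d ∈ L, (0 : ℝ) < ((Fam I Z).ncard : ℝ) ∧
        δ * ((Fam I Z).ncard : ℝ) ≤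
          ((Fam I Z ∩ {k | Pool.Agent.Y667.QK.TwS (fun j => (d j : ℤ)) k}).ncard : ℝ) := by
  classical
  obtain ⟨β, hfl⟩ := Pool.Agent.Y388.QK.FLIP 17 (by norm_num) (by norm_num)
  rcases hI with rfl | rfl | ⟨f, hf, rfl⟩
  · have hfin : ∀ Z : ℕ, (Fam HeightLe Z).Finite := fun Z => by
      rw [FamH_eq]
      exact finite_toSet _
    refine ⟨hfin, tendstoH, fun m N => ?_⟩
    obtain ⟨L, hL, δ, hδ, H0, h⟩ :=
      Pool.Agent.Y667.QK.main_h Pool.Agent.Y388.QK.PRM hfl m N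
    refine ⟨L, hL, δ, hδ, ?_⟩
    filter_upwards [eventually_ge_atTop H0, tendstoH.eventually_ge_atTop 1] with H hH hH1
    obtain ⟨d, hd, hle⟩ := h H hH
    refine ⟨d, hd, by exact_mod_cast hH1, ?_⟩
    have e1 : (Fam HeightLe H).ncard = (Pool.Agent.W307.RT.Cv 2 H).card := by
      rw [FamH_eq, Set.ncard_coe_finset]
    rw [e1]
    refine hle.trans (Nat.cast_le.2 ?_)
    rw [← Set.ncard_coe_finset]
    refine Set.ncard_le_ncard (fun k hk => ?_) ((hfin H).inter_of_left _)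
    rw [mem_coe, mem_filter] at hk
    refine ⟨?_, hk.2⟩
    rw [FamH_eq, mem_coe]
    exact hk.1
  · have hfin : ∀ Z : ℕ, (Fam DiscLe Z).Finite := fun Z => by
      rw [FamD_eq]
      exact finite_toSet _
    refine ⟨hfin, tendstoD, fun m N => ?_⟩
    obtain ⟨L, hL, δ, hδ, H0, h⟩ :=
      Pool.Agent.Y667.QK.main_d Pool.Agent.Y388.QK.PRM hfl m N
    refine ⟨L, hL, δ, hδ, ?_⟩
    filter_upwards [eventually_ge_atTop H0, tendstoD.eventually_ge_atTop 1] with H hH hH1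
    obtain ⟨d, hd, hle⟩ := h H hH
    refine ⟨d, hd, by exact_mod_cast hH1, ?_⟩
    have e1 : (Fam DiscLe H).ncard = (Pool.Agent.TH344.DS.Dv H).card := by
      rw [FamD_eq, Set.ncard_coe_finset]
    rw [e1]
    refine hle.trans (Nat.cast_le.2 ?_)
    rw [← Set.ncard_coe_finset]
    refine Set.ncard_le_ncard (fun k hk => ?_) ((hfin H).inter_of_left _)
    rw [mem_coe, mem_filter] at hk
    refine ⟨?_, hk.2⟩
    rw [FamD_eq, mem_coe]
    exact hk.1
  · refine ⟨fun Z => ?_, ?_, fun m N => ?_⟩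
    · rw [FamC_eq]
      exact Pool.Agent.Y679.Cr.Gm_fin good (bdd hf) Z
    · simp only [FamC_eq]
      exact Pool.Agent.Y679.Cr.Gm_tendsto good (bdd hf)
    · obtain ⟨L, hL, δ₀, hδ₀, H0, h⟩ :=
        Pool.Agent.Y667.QK.main_h Pool.Agent.Y388.QK.PRM hfl m N
      obtain ⟨δ, hδ, Z0, hZ0⟩ := Pool.Agent.Q323.CO.posL good (L := L)
        (T := fun d c => Pool.Agent.Y667.QK.TwS (fun j => (d j : ℤ)) c) (by
        refine ⟨δ₀, hδ₀, H0, fun H hH => ?_⟩
        obtain ⟨d, hd, hle⟩ := h H hH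
        refine ⟨d, hd, _, fun k hk => ?_, hle⟩
        exact mem_filter.1 (mem_coe.1 hk))
      refine ⟨L, hL, δ, hδ, ?_⟩
      filter_upwards [eventually_ge_atTop Z0] with Z hZ
      obtain ⟨d, hd, h1⟩ := hZ0 Z hZ
      obtain ⟨h2, h3⟩ := h1 f (bdd hf)
      rw [← FamC_eq] at h2 h3
      exact ⟨d, hd, h2, h3⟩

/-- **Theorem.** Order the elliptic curves over `ℚ` with full rational 2-torsion by the naive height, by
the absolute value of the minimal discriminant, or by the conductor (with an arbitrary factor between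
`1` and `2 ^ 8 * 3 ^ 5` in the place of its part composed of 2 and 3, and with no bound on the height).
In each ordering there are finitely many curves of size at most `Z`, their number tends to infinity
with `Z`, and for all `m`, `N` there are a finite list `L` of tuples `d = (q_1 q'_1, ..., q_m q'_m)`
with `2 m` distinct primes larger than `N`, so that the `2 ^ m` products `D = ∏_{i ∈ T} d_i` are
different modulo squares, and `δ > 0` such that for all large `Z` for some `d` in `L` at least a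
proportion `δ` of the curves of size at most `Z` has rank zero and trivial 2-primary part of the
Tate-Shafarevich group for all the `2 ^ m` quadratic twists `E^D`; and one `d` in `L` has this property
for arbitrarily large `Z`. -/
theorem result : ∀ I : ℤ × ℤ → ℕ → Prop,
    I = HeightLe ∨ I = DiscLe ∨ (∃ f : ℤ × ℤ → ℕ, Factor f ∧ I = CondLe f) →
    (∀ Z : ℕ, (Fam I Z).Finite) ∧ Tendsto (fun Z : ℕ => (Fam I Z).ncard) atTop atTop ∧
    ∀ m N : ℕ, ∃ L : Finset (Fin m → ℕ), (∀ d ∈ L, Tuple N d) ∧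
      ∃ δ : ℝ, 0 < δ ∧ (∀ᶠ Z : ℕ in atTop, ∃ d ∈ L, δ ≤ proportion I (AllTwists d) Z) ∧
        ∃ d ∈ L, ∃ᶠ Z : ℕ in atTop, δ ≤ proportion I (AllTwists d) Z := by
  classical
  intro I hI
  obtain ⟨h1, h2, h3⟩ := key I hI
  refine ⟨h1, h2, fun m N => ?_⟩
  obtain ⟨L, hL, δ, hδ, h⟩ := h3 m N
  have hk : ∀ᶠ Z : ℕ in atTop, ∃ d ∈ L, δ ≤ proportion I (AllTwists d) Z := by
    filter_upwards [h] with Z hZ
    obtain ⟨d, hd, g1, g2⟩ := hZ
    refine ⟨d, hd, ?_⟩
    unfold proportion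
    rw [le_div_iff₀ g1]
    refine g2.trans (Nat.cast_le.2 (Set.ncard_le_ncard ?_ ((h1 Z).inter_of_left _)))
    rintro k ⟨h4, h5⟩
    exact ⟨h4, good_of (hL d hd) h4.1 h4.2.2.1 h5⟩
  exact ⟨L, hL, δ, hδ, hk, Pool.Agent.Q323.CO.pack L
    (fun d Z => δ ≤ proportion I (AllTwists d) Z) hk⟩

end Pool.Agent.Results.MP_e23604_nt.SimultaneousTwists
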